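import Pool.Agent.R21.CD.Unrect

/-!
# Uniform conical upper density fails for purely unrectifiable sets in the plane

Proof (helper733).  Let `e = c + i s` be a unit vector with small argument.  The two similarities
`f₀(z) = (e / 2) conj z` and `f₁(z) = 1 - (conj e / 2)(1 - conj z)` have ratio `1/2` and map a thin
triangle into itself.  Their attractor `E` is a compact set with `0 < H¹(E) < ∞` and it is
`1`-dimensional Ahlfors regular with constants that do not depend on `s`.  Seen from a point `x` of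
`E`, the points `y` of `E` with `ε r < |y - x| ≤ r` belong to about `log (1 / (ε s ^ 2))` levels, and
the direction of the pieces rotates by at most `3 s / 2` per level, so that they all lie in one thin
double cone, for `s` small with respect to `ε` and `1 - α`.  The cone around the orthogonal line
contains no such point, and its measure is at most `16 ε r`.

The set `E` is purely `1`-unrectifiable: a subset of `E` whose differences belong to a very thin double
cone must miss in each piece one of the descendants of a fixed generation, hence it is `H¹`-null; with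
Rademacher's theorem every Lipschitz image of the line meets `E` in a null set.
-/

set_option autoImplicit false

open Filter Topology Set MeasureTheory Measure Module
open scoped ENNReal NNReal ComplexConjugate

namespace Pool.Agent.Results.MP_924b48_an.PlaneCounterexample

open Pool.Agent.R21.CD

/-- Euclidean space -/
abbrev EE (n : ℕ) : Type := EuclideanSpace ℝ (Fin n)

/-- `F` is `m`-rectifiable: up to an `H^m`-null set it lies in a countable union of Lipschitz images
of `ℝ^m` -/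
def IsRectifiable {n : ℕ} (m : ℕ) (F : Set (EE n)) : Prop :=
  ∃ f : ℕ → EE m → EE n, (∀ i, ∃ K : ℝ≥0, LipschitzWith K (f i)) ∧
    μH[m] (F \ ⋃ i, range (f i)) = 0

/-- `E` is purely `m`-unrectifiable -/
def IsPurelyUnrectifiable {n : ℕ} (m : ℕ) (E : Set (EE n)) : Prop :=
  ∀ F : Set (EE n), IsRectifiable m F → μH[m] (E ∩ F) = 0

/-- the truncated cone `X(x, r, V, α)` -/
def Cone {n : ℕ} (x : EE n) (r : ℝ) (V : Submodule ℝ (EE n)) (α : ℝ) : Set (EE n) :=
  {y | y ∈ Metric.closedBall x r ∧ Metric.infDist (y - x) V < α * ‖y - x‖}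

/-- the uniform conical upper density -/
noncomputable def Theta {n : ℕ} (m : ℕ) (α : ℝ) (μ : Measure (EE n)) (x : EE n) : ℝ≥0∞ :=
  limsup (fun r : ℝ => ⨅ V : {V : Submodule ℝ (EE n) // finrank ℝ V = n - m},
    (ENNReal.ofReal (2 * r))⁻¹ ^ m * μ (Cone x r V α)) (𝓝[>] 0)

/-- the statement of Q1 -/
def Q1 : Prop :=
  ∀ n m : ℕ, 1 ≤ m → m < n → ∀ α : ℝ, 0 < α → α < 1 →
    ∃ c : ℝ, 0 < c ∧ ∀ E : Set (EE n), IsPurelyUnrectifiable m E →
      0 < μH[m] E → μH[m] E < ⊤ →
        ∀ᵐ x ∂(μH[m].restrict E), ENNReal.ofReal c ≤ Theta m α (μH[m].restrict E) x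

/-- the plane -/
noncomputable def φ : ℂ ≃ₗᵢ[ℝ] EE 2 := Complex.orthonormalBasisOneI.repr

/-- the line -/
noncomputable def toE1 (t : ℝ) : EE 1 := WithLp.toLp 2 (fun _ => t)

lemma lipschitz_toE1 : LipschitzWith 1 toE1 := by
  apply LipschitzWith.of_dist_le_mul
  intro s t
  rw [EuclideanSpace.dist_eq]
  simp only [toE1, Finset.univ_unique, Fin.default_eq_zero, Finset.sum_singleton]
  rw [Real.sqrt_sq dist_nonneg]
  simp

lemma surjective_toE1 : Function.Surjective toE1 := by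
  intro y
  refine ⟨y 0, ?_⟩
  ext i
  fin_cases i
  rfl

lemma purely (P : Par) : IsPurelyUnrectifiable 1 (φ '' P.E) := by
  rintro F ⟨f, hf, hF⟩
  have h1 : φ '' P.E ∩ F ⊆ (F \ ⋃ i, range (f i)) ∪ ⋃ i, (φ '' P.E ∩ range (f i)) := by
    rintro z ⟨hz, hzF⟩
    by_cases h : z ∈ ⋃ i, range (f i)
    · right
      obtain ⟨i, hi⟩ := mem_iUnion.mp h
      exact mem_iUnion.mpr ⟨i, hz, hi⟩
    · left; exact ⟨hzF, h⟩
  refine measure_mono_null h1 (measure_union_null hF (measure_iUnion_null fun i => ?_))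
  obtain ⟨K, hK⟩ := hf i
  have h2 : φ '' P.E ∩ range (f i) = φ '' (P.E ∩ range (φ.symm ∘ f i ∘ toE1)) := by
    ext z
    constructor
    · rintro ⟨⟨w, hw, rfl⟩, ⟨y, hy⟩⟩
      obtain ⟨t, rfl⟩ := surjective_toE1 y
      refine ⟨w, ⟨hw, t, ?_⟩, rfl⟩
      show φ.symm (f i (toE1 t)) = w
      rw [hy, LinearIsometryEquiv.symm_apply_apply]
    · rintro ⟨w, ⟨hw, t, ht⟩, rfl⟩
      refine ⟨⟨w, hw, rfl⟩, toE1 t, ?_⟩
      rw [← ht]
      show f i (toE1 t) = φ (φ.symm (f i (toE1 t)))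
      rw [LinearIsometryEquiv.apply_symm_apply]
  rw [h2, φ.isometry.hausdorffMeasure_image (Or.inl (by norm_num))]
  rw [Nat.cast_one]
  apply P.null_lipschitz _ (1 * (K * 1))
  exact (φ.symm.lipschitz).comp (hK.comp lipschitz_toE1)

lemma theta_le (P : Par) (α ε : ℝ) (hε : 0 < ε)
    (hN : ∀ N : ℕ, (2 : ℝ) ^ N < 4 / (ε * P.s ^ 2) → 4 * P.s + 3 / 2 * P.s * N ≤ 1 - α)
    (x : EE 2) (hx : x ∈ φ '' P.E) :
    Theta 1 α (μH[(1 : ℕ)].restrict (φ '' P.E)) x ≤ ENNReal.ofReal (8 * ε) := by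
  obtain ⟨_, ⟨w, rfl⟩, rfl⟩ := hx
  unfold Theta
  apply Filter.limsup_le_of_le (by isBoundedDefault)
  filter_upwards [self_mem_nhdsWithin] with r hr
  have hr : 0 < r := hr
  obtain ⟨u, hu, hcone⟩ := P.cone_main α ε r hε hr hN w
  have hIu : φ (Complex.I * u) ≠ 0 := by
    intro h
    have h1 : ‖φ (Complex.I * u)‖ = 1 := by
      rw [LinearIsometryEquiv.norm_map, norm_mul, Complex.norm_I, hu, one_mul]
    rw [h, norm_zero] at h1
    norm_num at h1
  refine iInf_le_of_le ⟨Submodule.span ℝ {φ (Complex.I * u)}, finrank_span_singleton hIu⟩ ?_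
  have hmeas : MeasurableSet (φ '' P.E) := (P.isCompact_E.image φ.continuous).measurableSet
  have hsub : Cone (φ (P.G w)) r (Submodule.span ℝ {φ (Complex.I * u)}) α ∩ φ '' P.E
      ⊆ φ '' (P.E ∩ Metric.closedBall (P.G w) (ε * r)) := by
    rintro _ ⟨⟨hy1, hy2⟩, ⟨_, ⟨w', rfl⟩, rfl⟩⟩
    refine ⟨P.G w', ⟨⟨w', rfl⟩, ?_⟩, rfl⟩
    rw [Metric.mem_closedBall, dist_eq_norm]
    by_contra hcon
    push Not at hcon
    rw [Metric.mem_closedBall, φ.dist_map, dist_eq_norm] at hy1
    have h1 := hcone w' hcon hy1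
    rw [← map_sub, LinearIsometryEquiv.norm_map] at hy2
    have h2 : |(conj u * (P.G w' - P.G w)).re| ≤ Metric.infDist (φ (P.G w' - P.G w))
        (Submodule.span ℝ {φ (Complex.I * u)} : Submodule ℝ (EE 2)) := by
      rw [Metric.le_infDist (Submodule.nonempty _)]
      intro v hv
      obtain ⟨t, rfl⟩ := Submodule.mem_span_singleton.mp hv
      rw [← map_smul, φ.dist_map, dist_eq_norm]
      have h3 : (conj u * (P.G w' - P.G w)).re
          = (conj u * (P.G w' - P.G w - t • (Complex.I * u))).re := by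
        have h4 : conj u * t • (Complex.I * u) = ((t : ℝ) : ℂ) * Complex.I := by
          rw [Complex.real_smul]
          have h5 : conj u * u = 1 := by
            rw [mul_comm, Complex.mul_conj, Complex.normSq_eq_norm_sq, hu]; norm_num
          calc conj u * ((t : ℂ) * (Complex.I * u)) = (conj u * u) * ((t : ℂ) * Complex.I) := by ring
            _ = _ := by rw [h5, one_mul]
        rw [mul_sub (conj u) (P.G w' - P.G w), Complex.sub_re, h4, Complex.re_ofReal_mul,
          Complex.I_re, mul_zero, sub_zero]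
      rw [h3]
      refine (Complex.abs_re_le_norm _).trans ?_
      rw [norm_mul, Complex.norm_conj, hu, one_mul]
    exact absurd hy2 (not_lt.mpr (h1.trans h2))
  have hmu : (μH[(1 : ℕ)].restrict (φ '' P.E))
      (Cone (φ (P.G w)) r (Submodule.span ℝ {φ (Complex.I * u)}) α)
      ≤ ENNReal.ofReal (16 * (ε * r)) := by
    rw [Measure.restrict_apply' hmeas]
    refine (measure_mono hsub).trans ?_
    rw [φ.isometry.hausdorffMeasure_image (Or.inl (by norm_num)), Nat.cast_one]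
    exact P.hausdorff_ball w (ε * r) (by positivity)
  rw [pow_one]
  calc (ENNReal.ofReal (2 * r))⁻¹ * (μH[(1 : ℕ)].restrict (φ '' P.E))
        (Cone (φ (P.G w)) r (Submodule.span ℝ {φ (Complex.I * u)}) α)
      ≤ (ENNReal.ofReal (2 * r))⁻¹ * ENNReal.ofReal (16 * (ε * r)) := by
        exact mul_le_mul_right hmu _
    _ = ENNReal.ofReal (8 * ε) := by
        rw [← ENNReal.ofReal_inv_of_pos (by positivity),
          ← ENNReal.ofReal_mul (by positivity)]
        congr 1
        field_simp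
        ring

/-- the choice of the parameters -/
lemma exists_par (α ε : ℝ) (hα : α < 1) (hε : 0 < ε) :
    ∃ P : Par, ∀ N : ℕ, (2 : ℝ) ^ N < 4 / (ε * P.s ^ 2) →
      4 * P.s + 3 / 2 * P.s * N ≤ 1 - α := by
  obtain ⟨J, hJ⟩ := pow_unbounded_of_one_lt (1 / ε) (show (1 : ℝ) < 2 by norm_num)
  have ht1 : Tendsto (fun k : ℕ => (7 + 3 / 2 * (J : ℝ)) * (1 / 2) ^ k + 3 * ((k : ℝ) ^ 1 * (1 / 2) ^ k))
      atTop (𝓝 ((7 + 3 / 2 * (J : ℝ)) * 0 + 3 * 0)) := by
    apply Tendsto.add
    · exact Par.tendsto_half.const_mul _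
    · apply Tendsto.const_mul
      exact tendsto_pow_const_mul_const_pow_of_abs_lt_one 1 (by rw [abs_of_pos] <;> norm_num)
  rw [mul_zero, mul_zero, add_zero] at ht1
  obtain ⟨k, hk1, hk2⟩ := ((ht1.eventually (gt_mem_nhds (show 0 < 1 - α by linarith))).and
    (eventually_ge_atTop 2)).exists
  set s : ℝ := (1 / 2) ^ k with hs
  have hs0 : 0 < s := by positivity
  have hs4 : s ≤ 1 / 4 := by
    have : ((1 : ℝ) / 2) ^ k ≤ (1 / 2) ^ 2 := pow_le_pow_of_le_one (by norm_num) (by norm_num) hk2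
    rw [hs]; linarith
  have h1s : 0 < 1 - s ^ 2 := by nlinarith
  refine ⟨⟨s, Real.sqrt (1 - s ^ 2), hs0, hs4, Real.sqrt_pos.mpr h1s, ?_⟩, ?_⟩
  · rw [Real.sq_sqrt h1s.le]; ring
  · intro N hN
    show 4 * s + 3 / 2 * s * N ≤ 1 - α
    have hN : (2 : ℝ) ^ N < 4 / (ε * s ^ 2) := hN
    have h2 : 4 / (ε * s ^ 2) = (1 / ε) * 2 ^ (2 * k + 2) := by
      have h3 : s * 2 ^ k = 1 := by rw [hs, ← mul_pow]; norm_num
      rw [pow_add, mul_comm 2 k, pow_mul]
      field_simp
      have : (1 : ℝ) = (s * 2 ^ k) ^ 2 := by rw [h3]; norm_num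
      rw [mul_pow] at this
      linarith
    have h3 : (2 : ℝ) ^ N < 2 ^ (J + (2 * k + 2)) := by
      rw [h2] at hN
      refine hN.trans ?_
      rw [pow_add 2 J]
      exact mul_lt_mul_of_pos_right hJ (by positivity)
    have h4 : N < J + (2 * k + 2) := (pow_lt_pow_iff_right₀ (by norm_num)).mp h3
    have h5 : (N : ℝ) ≤ J + (2 * k + 2) := by exact_mod_cast h4.le
    have h6 : 3 / 2 * s * N ≤ 3 / 2 * s * (J + (2 * k + 2)) :=
      mul_le_mul_of_nonneg_left h5 (by positivity)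
    rw [pow_one] at hk1
    linarith

theorem result :
    (∀ α : ℝ, 0 < α → α < 1 → ∀ c : ℝ, 0 < c →
      ∃ E : Set (EE 2), IsCompact E ∧ IsPurelyUnrectifiable 1 E ∧
        0 < μH[(1 : ℕ)] E ∧ μH[(1 : ℕ)] E < ⊤ ∧
        ∀ x ∈ E, Theta 1 α (μH[(1 : ℕ)].restrict E) x < ENNReal.ofReal c) ∧
    ¬ Q1 := by
  have main : ∀ α : ℝ, 0 < α → α < 1 → ∀ c : ℝ, 0 < c →
      ∃ E : Set (EE 2), IsCompact E ∧ IsPurelyUnrectifiable 1 E ∧
        0 < μH[(1 : ℕ)] E ∧ μH[(1 : ℕ)] E < ⊤ ∧
        ∀ x ∈ E, Theta 1 α (μH[(1 : ℕ)].restrict E) x < ENNReal.ofReal c := by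
    intro α hα0 hα1 c hc
    obtain ⟨P, hP⟩ := exists_par α (c / 16) hα1 (by positivity)
    have himg : μH[(1 : ℕ)] (φ '' P.E) = μH[1] P.E := by
      rw [φ.isometry.hausdorffMeasure_image (Or.inl (by norm_num)), Nat.cast_one]
    refine ⟨φ '' P.E, P.isCompact_E.image φ.continuous, purely P, ?_, ?_, ?_⟩
    · rw [himg]; exact P.hausdorff_E_pos
    · rw [himg]; exact P.hausdorff_E_lt_top
    · intro x hx
      refine (theta_le P α (c / 16) (by positivity) hP x hx).trans_lt ?_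
      rw [ENNReal.ofReal_lt_ofReal_iff hc]
      linarith
  refine ⟨main, ?_⟩
  intro hQ
  obtain ⟨c, hc, h⟩ := hQ 2 1 le_rfl (by norm_num) (1 / 2) (by norm_num) (by norm_num)
  obtain ⟨E, hE1, hE2, hE3, hE4, hE5⟩ := main (1 / 2) (by norm_num) (by norm_num) c hc
  have h1 := h E hE2 hE3 hE4
  have h2 : ∀ᵐ x ∂(μH[(1 : ℕ)].restrict E), x ∈ E := ae_restrict_mem hE1.measurableSet
  have h3 : ∀ᵐ x ∂(μH[(1 : ℕ)].restrict E), False := by
    filter_upwards [h1, h2] with x hx1 hx2
    exact absurd hx1 (not_le.mpr (hE5 x hx2))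
  rw [eventually_false_iff_eq_bot, ae_eq_bot, restrict_eq_zero] at h3
  exact hE3.ne' h3

end Pool.Agent.Results.MP_924b48_an.PlaneCounterexample
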